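import Pool.Agent.MNT.StmtsT
import Pool.Agent.MNT.StmtsA

set_option autoImplicit false

/-!
# MNT, row LOC: the local inequality
-/

namespace Pool.Agent.MNT.H2

open Polynomial Pool.Agent.MNT

/-- both levels contain the length of the whole set -/
theorem lev_sub_le {P : Type} [Fintype P] [DecidableEq P] (Λ : Lam P) (s t : Finset P) :
    Λ.lev s - Λ.lev t ≤ Λ.len := by
  classical
  have h1 : Λ.lev s ≤ Λ.l Finset.univ + Λ.len := by
    unfold Lam.lev Lam.len
    rw [← Finset.sum_filter_add_sum_filter_not (Λ.V.filter fun d => s ⊆ d)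
      (fun d => d = Finset.univ)]
    have h2 : ((Λ.V.filter fun d => s ⊆ d).filter fun d => d = Finset.univ) = {Finset.univ} := by
      ext d
      simp only [Finset.mem_filter, Finset.mem_singleton]
      constructor
      · rintro ⟨_, h⟩
        exact h
      · rintro rfl
        exact ⟨⟨Λ.top_mem, Finset.subset_univ _⟩, rfl⟩
    rw [h2, Finset.sum_singleton]
    have h3 : ∑ d ∈ (Λ.V.filter fun d => s ⊆ d).filter (fun d => ¬ d = Finset.univ), Λ.l d ≤
        ∑ d ∈ Λ.V.filter (fun d => d ≠ Finset.univ), Λ.l d := by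
      refine Finset.sum_le_sum_of_subset_of_nonneg ?_ ?_
      · intro d hd
        simp only [Finset.mem_filter] at hd ⊢
        exact ⟨hd.1.1, hd.2⟩
      · intro d hd _
        simp only [Finset.mem_filter] at hd
        exact (Λ.pos d hd.1 hd.2).le
    linarith
  have h4 : Λ.l Finset.univ ≤ Λ.lev t := by
    unfold Lam.lev
    rw [← Finset.sum_filter_add_sum_filter_not (Λ.V.filter fun d => t ⊆ d)
      (fun d => d = Finset.univ)]
    have h2 : ((Λ.V.filter fun d => t ⊆ d).filter fun d => d = Finset.univ) = {Finset.univ} := by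
      ext d
      simp only [Finset.mem_filter, Finset.mem_singleton]
      constructor
      · rintro ⟨_, h⟩
        exact h
      · rintro rfl
        exact ⟨⟨Λ.top_mem, Finset.subset_univ _⟩, rfl⟩
    rw [h2, Finset.sum_singleton]
    have h3 : 0 ≤ ∑ d ∈ (Λ.V.filter fun d => t ⊆ d).filter (fun d => ¬ d = Finset.univ),
        Λ.l d := by
      refine Finset.sum_nonneg ?_
      intro d hd
      simp only [Finset.mem_filter] at hd
      exact (Λ.pos d hd.1.1 hd.2).le
    linarith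
  linarith

/-- the logarithm of the value of a split polynomial -/
theorem log_eval {E : Type} [Field E] (v : AbsoluteValue E ℝ) {F : E[X]} {x : E} {N : ℕ}
    {U W : E[X]} {c : E} (h : IsSol F x N U W c) (hs : U.Splits) :
    Real.log (v (U.eval x)) - Real.log (v c) =
      (U.roots.map fun ζ => Real.log (v (x - ζ))).sum := by
  have hU : U ≠ 0 := by
    intro h0
    apply h.ev
    rw [h0, eval_zero]
  have hlead : v U.leadingCoeff = v c := by
    have h1 : v U.leadingCoeff ^ 2 = v c ^ 2 := by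
      rw [← map_pow, ← map_pow, h.lead]
    exact (pow_left_inj₀ (v.nonneg _) (v.nonneg _) (by norm_num)).1 h1
  have hev : U.eval x = U.leadingCoeff * (U.roots.map fun ζ => x - ζ).prod :=
    hs.eval_eq_prod_roots x
  have hprod : (U.roots.map fun ζ => x - ζ).prod ≠ 0 := by
    intro h0
    apply h.ev
    rw [hev, h0, mul_zero]
  have hlc : U.leadingCoeff ≠ 0 := leadingCoeff_ne_zero.2 hU
  have hne : ∀ ζ ∈ U.roots, x - ζ ≠ 0 := by
    intro ζ hζ h0
    apply hprod
    rw [Multiset.prod_eq_zero_iff]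
    rw [Multiset.mem_map]
    exact ⟨ζ, hζ, h0⟩
  have hgen : ∀ Z : Multiset E, (∀ ζ ∈ Z, x - ζ ≠ 0) →
      Real.log (v (Z.map fun ζ => x - ζ).prod) = (Z.map fun ζ => Real.log (v (x - ζ))).sum := by
    intro Z
    induction Z using Multiset.induction_on with
    | empty => intro _; simp
    | cons a Z ih =>
      intro hZ
      rw [Multiset.map_cons, Multiset.prod_cons, Multiset.map_cons, Multiset.sum_cons, map_mul,
        Real.log_mul, ih (fun ζ hζ => hZ ζ (Multiset.mem_cons_of_mem hζ))]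
      · exact v.ne_zero (hZ a (Multiset.mem_cons_self a Z))
      · apply v.ne_zero
        intro h0
        rw [Multiset.prod_eq_zero_iff, Multiset.mem_map] at h0
        obtain ⟨ζ, hζ, h1⟩ := h0
        exact hZ ζ (Multiset.mem_cons_of_mem hζ) h1
  rw [hev, map_mul, Real.log_mul (v.ne_zero hlc) (v.ne_zero hprod), hgen _ hne, hlead]
  ring

theorem loc (tre : TreStmt) (vlm : VlmStmt) (rep : RepStmt) (cnt : CntStmt) : LocStmt := by
  intro g hg
  obtain ⟨ε, hε, htre⟩ := tre g hg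
  refine ⟨ε, 3 * g * (4 * g + 8) * (1 + 3 * (6 * g + 9)) + (8 * g + 16) * (6 * g + 9) ^ 3 +
    2 * ε * (6 * g + 9), hε, ?_⟩
  intro E _ v c₀ e₂ hQ he₂ P _ _ R hR hP z hz e N U W c he hsol hharm p q p' q' hpq hpq'
  have hn : (Fintype.card P : ℝ) = 6 * g + 9 := by
    rw [hP]; push_cast; ring
  have hc₀ : 0 ≤ c₀ := hQ.1
  obtain ⟨Λ, hΛ⟩ := rep E v c₀ hQ P (by omega) z hz
  obtain ⟨μ, hμ, hineq⟩ := htre P R hR hP Λ
  have hcnt := cnt g P Λ R (dis v z) _ hΛ
  have hRc : (Rᶜ.card : ℝ) = 4 * g + 8 := by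
    rw [Finset.card_compl, hR, hP]
    have : 2 * g + 1 + (4 * g + 8) - (2 * g + 1) = 4 * g + 8 := by omega
    rw [this]; push_cast; ring
  have hg0 : (0 : ℝ) ≤ g := Nat.cast_nonneg g
  set n : ℝ := 6 * g + 9 with hndef
  have hn0 : 0 ≤ n := by rw [hndef]; positivity
  -- the bound at each point
  have hx : ∀ x ∈ Rᶜ, (Real.log (v ((U x).eval (z x))) - Real.log (v (c x))) / N x ≤
      (e₂ + c₀ + 3 * (n * c₀)) + Λ.En (μ x) x := by
    intro x hx
    have hxR : x ∉ R := Finset.mem_compl.1 hx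
    obtain ⟨hs, hsp⟩ := hsol x hxR
    have hN : (0 : ℝ) < N x := by
      have := hs.pos
      exact_mod_cast this
    have hU0 : U x ≠ 0 := by
      intro h0
      apply hs.ev
      rw [h0, eval_zero]
    have hroot : z x ∉ (U x).roots := by
      intro h0
      exact hs.ev (isRoot_of_mem_roots h0)
    have hb := vlm E v c₀ hQ P R z hz Λ _ hΛ x (U x).roots hroot e₂ (by
      intro d hd hgr
      obtain ⟨p, hp, hh⟩ := hharm Λ hΛ d hd hgr
      exact ⟨p, hp, hh x hxR⟩) (μ x) (hμ x hxR)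
    have hcard : (Multiset.card (U x).roots : ℝ) = N x := by
      rw [← hsp.natDegree_eq_card_roots, hs.deg]
    rw [← log_eval v hs hsp, hcard, hn] at hb
    rw [div_le_iff₀ hN]
    calc Real.log (v ((U x).eval (z x))) - Real.log (v (c x))
        ≤ (N x : ℝ) * (e₂ + c₀ + 3 * (n * c₀) + Λ.En (μ x) x) := hb
      _ = _ := by ring
  have hsum : ∑ x ∈ Rᶜ, (Real.log (v ((U x).eval (z x))) - Real.log (v (c x))) / N x ≤
      (4 * g + 8) * (e₂ + c₀ + 3 * (n * c₀)) + ∑ x ∈ Rᶜ, Λ.En (μ x) x := by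
    calc _ ≤ ∑ x ∈ Rᶜ, ((e₂ + c₀ + 3 * (n * c₀)) + Λ.En (μ x) x) := Finset.sum_le_sum hx
      _ = _ := by
        rw [Finset.sum_add_distrib, Finset.sum_const, nsmul_eq_mul, hRc]
  have h3g : (0 : ℝ) ≤ 3 * g := by positivity
  have hmul := mul_le_mul_of_nonneg_left hsum h3g
  have hΛ' : Λ.Rep (dis v z) (n * c₀) := by
    rw [← hn]; exact hΛ
  rw [hn] at hcnt
  have habs := (abs_le.1 hcnt).1
  -- levels
  have h1 := (abs_le.1 (hΛ' p' q' hpq')).2
  have h2 := (abs_le.1 (hΛ' p q hpq)).1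
  have h3 := lev_sub_le Λ {p', q'} {p, q}
  have h4 : dis v z p' q' - dis v z p q ≤ Λ.len + 2 * (n * c₀) := by linarith
  have h5 := mul_le_mul_of_nonneg_left h4 hε.le
  have h6 : 0 ≤ 3 * (g : ℝ) * (4 * g + 8) := by positivity
  have h7 : 0 ≤ 3 * (g : ℝ) * (4 * g + 8) * (3 * n) * e₂ := by positivity
  have h8 : 0 ≤ (8 * (g : ℝ) + 16) * n ^ 3 * e₂ := by positivity
  have h9 : 0 ≤ 2 * ε * n * e₂ := by positivity
  have hexp : (3 * (g : ℝ) * (4 * g + 8) * (1 + 3 * n) + (8 * g + 16) * n ^ 3 + 2 * ε * n) *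
      (c₀ + e₂) = 3 * g * ((4 * g + 8) * (e₂ + c₀ + 3 * (n * c₀))) +
        (8 * g + 16) * n ^ 2 * (n * c₀) + ε * (2 * (n * c₀)) +
        3 * (g : ℝ) * (4 * g + 8) * (3 * n) * e₂ + (8 * (g : ℝ) + 16) * n ^ 3 * e₂ +
        2 * ε * n * e₂ := by ring
  rw [hexp]
  rw [mul_add] at h5 hmul
  linarith

end Pool.Agent.MNT.H2
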